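import Pool.Agent.H496R3.QuadMain

set_option autoImplicit false

namespace Pool.Agent.Results.MP_a17b09_nt.EvenAlmostPrimes

open Pool.Agent.H496R3 Pool.Agent.H505R4

/-- the discriminant class decides the parities of `b` and `c` -/
lemma odd_of_disc (b c : ℤ) (h : (b ^ 2 - 4 * c) % 24 = 5 ∨ (b ^ 2 - 4 * c) % 24 = 21) :
    b % 2 = 1 ∧ c % 2 = 1 ∧ (b ^ 2 - 4 * c) % 3 ≠ 1 := by
  have h8 : (b ^ 2 - 4 * c) % 8 = 5 := by omega
  have h3 : (b ^ 2 - 4 * c) % 3 ≠ 1 := by omega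
  have hb : b % 2 = 1 := by
    by_contra hcon
    obtain ⟨k, rfl⟩ : ∃ k, b = 2 * k := ⟨b / 2, by omega⟩
    have : (2 * k) ^ 2 = 4 * (k ^ 2) := by ring
    omega
  obtain ⟨k, rfl⟩ : ∃ k, b = 2 * k + 1 := ⟨b / 2, by omega⟩
  have e : (2 * k + 1) ^ 2 = 4 * (k * (k + 1)) + 1 := by ring
  have hk : k * (k + 1) % 2 = 0 := Int.even_iff.1 (Int.even_mul_succ_self k)
  refine ⟨hb, ?_, h3⟩
  omega

theorem part1 (b c : ℤ) (h : (b ^ 2 - 4 * c) % 24 = 5 ∨ (b ^ 2 - 4 * c) % 24 = 21) :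
    ∃ X₀ : ℕ, ∀ E : ℕ → Prop, (∀ m n : ℕ, m ≠ 0 → n ≠ 0 → ¬ E m → ¬ E n → E (m * n)) →
      ∀ X : ℕ, X₀ ≤ X → (X : ℝ) ^ ((1 : ℝ) / 2) / Real.log X ^ 93 ≤
        (({t : ℕ | 1 ≤ t ∧ t ≤ X ∧ 0 < (t : ℤ) ^ 2 + b * t + c ∧
          (∀ p : ℕ, p.Prime → (p : ℤ) ∣ (t : ℤ) ^ 2 + b * t + c →
            (X : ℝ) ^ ((1 : ℝ) / 3600) < p) ∧
          E ((t : ℤ) ^ 2 + b * t + c).toNat} : Set ℕ).ncard : ℝ) := by
  obtain ⟨hb, hc, h3⟩ := odd_of_disc b c h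
  -- shift to nonnegative coefficients
  obtain ⟨s, hs⟩ : ∃ s : ℕ, (s : ℤ) = |b| + |c| + 1 := ⟨(|b| + |c| + 1).toNat, by
    rw [Int.toNat_of_nonneg]; positivity⟩
  have hb0 : 0 ≤ b + 2 * s := by
    have := neg_abs_le b
    have := abs_nonneg c
    omega
  have hc0 : 0 ≤ (s : ℤ) ^ 2 + b * s + c := by
    have h1 := neg_abs_le b
    have h2 := neg_abs_le c
    have h4 := abs_nonneg c
    have h5 := abs_nonneg b
    nlinarith
  obtain ⟨B, hB⟩ : ∃ B : ℕ, (B : ℤ) = b + 2 * s := ⟨(b + 2 * s).toNat, Int.toNat_of_nonneg hb0⟩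
  obtain ⟨C, hC⟩ : ∃ C : ℕ, (C : ℤ) = (s : ℤ) ^ 2 + b * s + c :=
    ⟨((s : ℤ) ^ 2 + b * s + c).toNat, Int.toNat_of_nonneg hc0⟩
  have hdisc : ((B : ℤ) ^ 2 - 4 * C) = b ^ 2 - 4 * c := by rw [hB, hC]; ring
  have hB2 : B % 2 = 1 := by omega
  have hC2 : C % 2 = 1 := by
    have h5 := odd_of_disc B C (by rw [hdisc]; exact h)
    have := h5.2.1
    omega
  obtain ⟨X₀, hX₀⟩ := mainQ (b := B) (c := C) s hB2 hC2 (by rw [hdisc]; exact h3)
  refine ⟨X₀, fun E hE X hX => (hX₀ E hE X hX).trans ?_⟩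
  have hval : ∀ n : ℕ, ((n + s : ℕ) : ℤ) ^ 2 + b * ((n + s : ℕ) : ℤ) + c =
      ((n ^ 2 + B * n + C : ℕ) : ℤ) := by
    intro n
    push_cast
    rw [hB, hC]
    ring
  have hfin : ({t : ℕ | 1 ≤ t ∧ t ≤ X ∧ 0 < (t : ℤ) ^ 2 + b * t + c ∧
          (∀ p : ℕ, p.Prime → (p : ℤ) ∣ (t : ℤ) ^ 2 + b * t + c →
            (X : ℝ) ^ ((1 : ℝ) / 3600) < p) ∧
          E ((t : ℤ) ^ 2 + b * t + c).toNat} : Set ℕ).Finite :=
    (Set.finite_Iic X).subset fun n hn => hn.2.1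
  exact_mod_cast Set.ncard_le_ncard_of_injOn (fun n : ℕ => n + s) (by
    rintro n ⟨h1, h2, h4, h5⟩
    refine ⟨by omega, h1, ?_, ?_, ?_⟩
    · show 0 < ((n + s : ℕ) : ℤ) ^ 2 + b * ((n + s : ℕ) : ℤ) + c
      rw [hval]
      have : 0 < n ^ 2 + B * n + C := by omega
      exact_mod_cast this
    · intro p hp hd
      have hd' : (p : ℤ) ∣ ((n + s : ℕ) : ℤ) ^ 2 + b * ((n + s : ℕ) : ℤ) + c := hd
      rw [hval] at hd'
      exact h4 p hp (by exact_mod_cast hd')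
    · show E (((n + s : ℕ) : ℤ) ^ 2 + b * ((n + s : ℕ) : ℤ) + c).toNat
      rw [hval, Int.toNat_natCast]
      exact h5) (by
    intro x _ y _ hxy
    have : x + s = y + s := hxy
    omega) hfin

/-- a positive integer prime to `6` -/
lemma pf_facts (m : ℕ) (hm : m ≠ 0) (h2 : m % 2 ≠ 0) : (∀ p ∈ m.primeFactorsList, p % 2 ≠ 0) ∧
    m.primeFactorsList.prod = m := by
  refine ⟨fun p hp h0 => ?_, Nat.prod_primeFactorsList hm⟩
  have h1 := Nat.dvd_of_mem_primeFactorsList hp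
  have h4 : 2 ∣ m := (Nat.dvd_of_mod_eq_zero h0).trans h1
  omega

lemma pf_facts3 (m : ℕ) (h3 : m % 3 ≠ 0) : (∀ p ∈ m.primeFactorsList, p % 3 ≠ 0) := by
  intro p hp h0
  have h1 := Nat.dvd_of_mem_primeFactorsList hp
  have h4 : 3 ∣ m := (Nat.dvd_of_mod_eq_zero h0).trans h1
  omega

open Classical in
theorem part2 (b c : ℤ) (h : (b ^ 2 - 4 * c) % 3 = 1 ∨ (b ^ 2 - 4 * c) % 16 = 4 ∨
      (b ^ 2 - 4 * c) % 16 = 8 ∨ (b ^ 2 - 4 * c) % 32 = 16) :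
    ∃ S : Set ℕ, ∀ t : ℤ, 0 < t ^ 2 + b * t + c → ¬ 2 ∣ t ^ 2 + b * t + c →
      ¬ 3 ∣ t ^ 2 + b * t + c →
      Odd ((t ^ 2 + b * t + c).toNat.primeFactorsList.countP (fun l => decide (l ∈ S))) := by
  -- reduction to even `b`
  have hev : ∀ D : ℤ, D = b ^ 2 - 4 * c → D % 4 = 0 → ∃ k d : ℤ, b = 2 * k ∧ c = k ^ 2 + d ∧
      D = - (4 * d) := by
    intro D hD h4
    have hb : b % 2 = 0 := by
      by_contra hcon
      obtain ⟨k, rfl⟩ : ∃ k, b = 2 * k + 1 := ⟨b / 2, by omega⟩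
      have e : (2 * k + 1) ^ 2 = 4 * (k * (k + 1)) + 1 := by ring
      omega
    obtain ⟨k, rfl⟩ : ∃ k, b = 2 * k := ⟨b / 2, by omega⟩
    refine ⟨k, c - k ^ 2, rfl, by ring, ?_⟩
    rw [hD]
    ring
  rcases h with h | h | h | h
  · refine ⟨{p | p % 3 = 2}, fun t h0 h2 h3 => ?_⟩
    obtain ⟨m, hm⟩ : ∃ m : ℕ, (m : ℤ) = t ^ 2 + b * t + c := ⟨_, Int.toNat_of_nonneg h0.le⟩
    rw [← hm, Int.toNat_natCast]
    rw [← hm] at h0 h2 h3
    have hmod : (m : ℤ) % 3 = 2 := by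
      have e1 : b % 3 = 0 ∨ b % 3 = 1 ∨ b % 3 = 2 := by omega
      have e2 : c % 3 = 0 ∨ c % 3 = 1 ∨ c % 3 = 2 := by omega
      have e3 : t % 3 = 0 ∨ t % 3 = 1 ∨ t % 3 = 2 := by omega
      have e4 : (m : ℤ) % 3 ≠ 0 := fun h => h3 (Int.dvd_of_emod_eq_zero h)
      rw [hm] at e4 ⊢
      rcases e1 with e1 | e1 | e1 <;> rcases e2 with e2 | e2 | e2 <;>
        rcases e3 with e3 | e3 | e3 <;>
        simp [Int.add_emod, Int.sub_emod, Int.mul_emod, pow_two, e1, e2, e3] at h e4 ⊢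
    have hl := list3 m.primeFactorsList (pf_facts3 m (by omega))
    rw [Nat.prod_primeFactorsList (by omega)] at hl
    rcases hl with ⟨-, hl⟩ | ⟨hl, -⟩
    · omega
    · refine (congrArg (fun q : ℕ → Bool => Odd (m.primeFactorsList.countP q)) ?_).mpr hl
      funext l
      exact decide_eq_decide.2 Iff.rfl
  · obtain ⟨k, d, rfl, rfl, hd⟩ := hev _ rfl (by omega)
    have hd4 : d % 4 = 3 := by omega
    refine ⟨{p | p % 4 = 3}, fun t h0 h2 h3 => ?_⟩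
    obtain ⟨m, hm⟩ : ∃ m : ℕ, (m : ℤ) = t ^ 2 + 2 * k * t + (k ^ 2 + d) :=
      ⟨_, Int.toNat_of_nonneg h0.le⟩
    rw [← hm, Int.toNat_natCast]
    rw [← hm] at h0 h2 h3
    have e : (m : ℤ) = (t + k) ^ 2 + d := by rw [hm]; ring
    have hmod : (m : ℤ) % 4 = 3 := by
      have e3 : (t + k) % 2 = 0 ∨ (t + k) % 2 = 1 := by omega
      rcases e3 with e3 | e3
      · obtain ⟨j, hj⟩ : ∃ j, t + k = 2 * j := ⟨(t + k) / 2, by omega⟩
        have : (t + k) ^ 2 = 4 * (j ^ 2) := by rw [hj]; ring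
        omega
      · exfalso
        obtain ⟨j, hj⟩ : ∃ j, t + k = 2 * j + 1 := ⟨(t + k) / 2, by omega⟩
        have : (t + k) ^ 2 = 4 * (j ^ 2 + j) + 1 := by rw [hj]; ring
        omega
    obtain ⟨k1, k2⟩ := pf_facts m (by omega) (by omega)
    have hl := list4 m.primeFactorsList k1
    rw [k2] at hl
    rcases hl with ⟨-, hl⟩ | ⟨hl, -⟩
    · omega
    · refine (congrArg (fun q : ℕ → Bool => Odd (m.primeFactorsList.countP q)) ?_).mpr hl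
      funext l
      exact decide_eq_decide.2 Iff.rfl
  · obtain ⟨k, d, rfl, rfl, hd⟩ := hev _ rfl (by omega)
    have hd4 : d % 4 = 2 := by omega
    refine ⟨{p | p % 4 = 3}, fun t h0 h2 h3 => ?_⟩
    obtain ⟨m, hm⟩ : ∃ m : ℕ, (m : ℤ) = t ^ 2 + 2 * k * t + (k ^ 2 + d) :=
      ⟨_, Int.toNat_of_nonneg h0.le⟩
    rw [← hm, Int.toNat_natCast]
    rw [← hm] at h0 h2 h3
    have e : (m : ℤ) = (t + k) ^ 2 + d := by rw [hm]; ring
    have hmod : (m : ℤ) % 4 = 3 := by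
      have e3 : (t + k) % 2 = 0 ∨ (t + k) % 2 = 1 := by omega
      rcases e3 with e3 | e3
      · exfalso
        obtain ⟨j, hj⟩ : ∃ j, t + k = 2 * j := ⟨(t + k) / 2, by omega⟩
        have : (t + k) ^ 2 = 4 * (j ^ 2) := by rw [hj]; ring
        omega
      · obtain ⟨j, hj⟩ : ∃ j, t + k = 2 * j + 1 := ⟨(t + k) / 2, by omega⟩
        have : (t + k) ^ 2 = 4 * (j ^ 2 + j) + 1 := by rw [hj]; ring
        omega
    obtain ⟨k1, k2⟩ := pf_facts m (by omega) (by omega)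
    have hl := list4 m.primeFactorsList k1
    rw [k2] at hl
    rcases hl with ⟨-, hl⟩ | ⟨hl, -⟩
    · omega
    · refine (congrArg (fun q : ℕ → Bool => Odd (m.primeFactorsList.countP q)) ?_).mpr hl
      funext l
      exact decide_eq_decide.2 Iff.rfl
  · obtain ⟨k, d, rfl, rfl, hd⟩ := hev _ rfl (by omega)
    have hd4 : d % 8 = 4 := by omega
    refine ⟨{p | p % 8 = 3 ∨ p % 8 = 5}, fun t h0 h2 h3 => ?_⟩
    obtain ⟨m, hm⟩ : ∃ m : ℕ, (m : ℤ) = t ^ 2 + 2 * k * t + (k ^ 2 + d) :=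
      ⟨_, Int.toNat_of_nonneg h0.le⟩
    rw [← hm, Int.toNat_natCast]
    rw [← hm] at h0 h2 h3
    have e : (m : ℤ) = (t + k) ^ 2 + d := by rw [hm]; ring
    have hmod : (m : ℤ) % 8 = 5 := by
      have e3 : (t + k) % 2 = 0 ∨ (t + k) % 2 = 1 := by omega
      rcases e3 with e3 | e3
      · exfalso
        obtain ⟨j, hj⟩ : ∃ j, t + k = 2 * j := ⟨(t + k) / 2, by omega⟩
        have : (t + k) ^ 2 = 4 * (j ^ 2) := by rw [hj]; ring
        omega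
      · obtain ⟨j, hj⟩ : ∃ j, t + k = 2 * j + 1 := ⟨(t + k) / 2, by omega⟩
        have : (t + k) ^ 2 = 4 * (j * (j + 1)) + 1 := by rw [hj]; ring
        have h7 : j * (j + 1) % 2 = 0 := Int.even_iff.1 (Int.even_mul_succ_self j)
        omega
    obtain ⟨k1, k2⟩ := pf_facts m (by omega) (by omega)
    have hl := list8 m.primeFactorsList k1
    rw [k2] at hl
    rcases hl with ⟨-, hl⟩ | ⟨hl, -⟩
    · omega
    · refine (congrArg (fun q : ℕ → Bool => Odd (m.primeFactorsList.countP q)) ?_).mpr hl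
      funext l
      exact decide_eq_decide.2 Iff.rfl

open Classical in
/-- Let `f(t) = t ^ 2 + b t + c` have discriminant `D = b ^ 2 - 4 c`.

(1) If `D` is `5` or `21` modulo `24`, then for every property `E` of positive integers such that
`m n` has `E` whenever neither `m` nor `n` has it (for instance: an even number of prime factors,
or an even number of prime factors in a given set) and all `X ≥ X₀` (with `X₀` depending only on
`b`, `c`), at least `X ^ (1/2) / log ^ 93 X` of the `t ≤ X` are such that `f(t)` is positive, has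
the property `E` and all its prime factors exceed `X ^ (1/3600)`.

(2) If `D` is `1` modulo `3`, or `4` or `8` modulo `16`, or `16` modulo `32`, then this fails: for
some set `S` every positive value `f(t)` prime to `6` has an odd number of prime factors in `S`. -/
theorem result :
    (∀ b c : ℤ, ((b ^ 2 - 4 * c) % 24 = 5 ∨ (b ^ 2 - 4 * c) % 24 = 21) →
      ∃ X₀ : ℕ, ∀ E : ℕ → Prop, (∀ m n : ℕ, m ≠ 0 → n ≠ 0 → ¬ E m → ¬ E n → E (m * n)) →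
        ∀ X : ℕ, X₀ ≤ X → (X : ℝ) ^ ((1 : ℝ) / 2) / Real.log X ^ 93 ≤
          (({t : ℕ | 1 ≤ t ∧ t ≤ X ∧ 0 < (t : ℤ) ^ 2 + b * t + c ∧
            (∀ p : ℕ, p.Prime → (p : ℤ) ∣ (t : ℤ) ^ 2 + b * t + c →
              (X : ℝ) ^ ((1 : ℝ) / 3600) < p) ∧
            E ((t : ℤ) ^ 2 + b * t + c).toNat} : Set ℕ).ncard : ℝ)) ∧
    (∀ b c : ℤ, ((b ^ 2 - 4 * c) % 3 = 1 ∨ (b ^ 2 - 4 * c) % 16 = 4 ∨
        (b ^ 2 - 4 * c) % 16 = 8 ∨ (b ^ 2 - 4 * c) % 32 = 16) →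
      ∃ S : Set ℕ, ∀ t : ℤ, 0 < t ^ 2 + b * t + c → ¬ 2 ∣ t ^ 2 + b * t + c →
        ¬ 3 ∣ t ^ 2 + b * t + c →
        Odd ((t ^ 2 + b * t + c).toNat.primeFactorsList.countP (fun l => decide (l ∈ S)))) :=
  ⟨part1, part2⟩

end Pool.Agent.Results.MP_a17b09_nt.EvenAlmostPrimes
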