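import Pool.Agent.H496R3.EightPos
import Pool.Agent.H496R3.EightNeg

set_option autoImplicit false

namespace Pool.Agent.Results.MP_a17b09_nt.EvenRoughDisc32

open Pool.Agent.H496R3

/-- Let `f(t) = t ^ 2 + b t + c` have a nonzero discriminant `D` divisible by `32` with `D ≢ 1 mod 3`
and `D ≢ 4 mod 5`. There is `X₀` (depending on `b`, `c` only) such that for every completely
multiplicative function `h` with values `±1` and all `X ≥ X₀`, at least `X ^ (1/4) / (log X) ^ 186`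
of the `t ≤ X` are such that `f(t)` is positive, `h (f(t)) = 1` and all prime factors of `f(t)`
exceed `X ^ (1/14000)`. -/
theorem result (b c : ℤ) (h32 : (b ^ 2 - 4 * c) % 32 = 0) (h0 : b ^ 2 - 4 * c ≠ 0)
    (h3 : (b ^ 2 - 4 * c) % 3 ≠ 1) (h5 : (b ^ 2 - 4 * c) % 5 ≠ 4) :
    ∃ X₀ : ℕ, ∀ h : ℕ → ℤ, (∀ m n : ℕ, m ≠ 0 → n ≠ 0 → h (m * n) = h m * h n) →
      (∀ m : ℕ, m ≠ 0 → h m = 1 ∨ h m = -1) → ∀ X : ℕ, X₀ ≤ X →
      (X : ℝ) ^ ((1 : ℝ) / 4) / Real.log X ^ 186 ≤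
        (({t : ℕ | 1 ≤ t ∧ t ≤ X ∧ 0 < (t : ℤ) ^ 2 + b * t + c ∧
          (∀ p : ℕ, p.Prime → (p : ℤ) ∣ (t : ℤ) ^ 2 + b * t + c →
            (X : ℝ) ^ ((1 : ℝ) / 14000) < p) ∧
          h ((t : ℤ) ^ 2 + b * t + c).toNat = 1} : Set ℕ).ncard : ℝ) := by
  have hb : b % 2 = 0 := by
    by_contra hcon
    obtain ⟨k, rfl⟩ : ∃ k, b = 2 * k + 1 := ⟨b / 2, by omega⟩
    have e : (2 * k + 1) ^ 2 = 4 * (k * (k + 1)) + 1 := by ring
    omega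
  obtain ⟨k, rfl⟩ : ∃ k, b = 2 * k := ⟨b / 2, by omega⟩
  obtain ⟨a, rfl⟩ : ∃ a, c = k ^ 2 + a := ⟨c - k ^ 2, by ring⟩
  have hD : (2 * k) ^ 2 - 4 * (k ^ 2 + a) = -(4 * a) := by ring
  rw [hD] at h32 h0 h3 h5
  rcases lt_trichotomy a 0 with ha | ha | ha
  · obtain ⟨j, hj⟩ : ∃ j : ℕ, a = -(8 * ((j : ℤ) + 1)) := ⟨((-a) / 8 - 1).toNat, by omega⟩
    subst hj
    exact (EightNeg.baseNeg j (by omega) (by omega)).main k
  · omega
  · obtain ⟨m, hm⟩ : ∃ m : ℕ, a = 8 * (m : ℤ) := ⟨(a / 8).toNat, by omega⟩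
    subst hm
    exact (Eight.base8 m (by omega) (by omega) (by omega)).main k

end Pool.Agent.Results.MP_a17b09_nt.EvenRoughDisc32
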